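import Pool.Agent.Lib.MP_b89653_co.Lower

set_option autoImplicit false

namespace Pool.Agent.Results.MP_b89653_co.LowerBound

open Filter Pool.Agent.Lib.MP_b89653_co.LB

/-- For every `ε > 0` and every large `r` there is an edge colouring of a finite complete graph in
which the vertices see on average at most `r` colours and every partition of the vertices into
monochromatic cycles (single vertices and edges allowed) has at least `(1 - ε) r log r` parts. -/
theorem result (ε : ℝ) (hε : 0 < ε) :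
    ∃ r₀ : ℕ, ∀ r : ℕ, r₀ ≤ r → ∃ (V K : Type) (_ : Fintype V) (_ : DecidableEq V)
      (C : SimpleGraph.TopEdgeLabeling V K),
      ∑ x : V, {k : K | ∃ y : V, (C.labelGraph k).Adj x y}.ncard ≤ r * Fintype.card V ∧
      ∀ P : Finpartition (Finset.univ : Finset V), (∀ S ∈ P.parts, S.card ≤ 2 ∨
          ∃ (k : K) (x : V) (p : (C.labelGraph k).Walk x x),
            p.IsCycle ∧ p.support.toFinset = S) →
        (1 - ε) * (r * Real.log r) ≤ P.parts.card := by
  obtain ⟨θ, h0, h1, h2⟩ : ∃ θ : ℝ, 0 < θ ∧ θ ≤ 1 / 4 ∧ 4 * θ ≤ ε :=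
    ⟨min ε 1 / 4, by positivity, by linarith [min_le_right ε 1], by linarith [min_le_left ε 1]⟩
  obtain ⟨r₀, hr⟩ := eventually_atTop.1
    (((Real.tendsto_log_atTop.comp tendsto_natCast_atTop_atTop).eventually_gt_atTop
      (24 / θ ^ 4)).and ((tendsto_natCast_atTop_atTop (R := ℝ)).eventually_ge_atTop (3 / θ)))
  refine ⟨r₀, fun r h => ?_⟩
  obtain ⟨hL, h3⟩ := hr r h
  rw [div_le_iff₀ h0] at h3
  have s1 := Nat.le_ceil (θ * r)
  have s2 := Nat.ceil_lt_add_one (show 0 ≤ θ * r by positivity)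
  generalize ⌈θ * r⌉₊ = s at s1 s2
  have r1 := mul_le_mul_of_nonneg_left h1 (Nat.cast_nonneg (α := ℝ) r)
  have s3 : s + 4 ≤ r := by exact_mod_cast (show (s : ℝ) + 4 ≤ r by linarith)
  have s4 : 1 ≤ s := by exact_mod_cast (show (1 : ℝ) ≤ s by linarith)
  obtain ⟨k, hk⟩ : ∃ k, r = k + s + 2 := ⟨r - s - 2, by omega⟩
  obtain ⟨V, K, i1, i2, C, c1, c2⟩ := exists_col k s (by omega) s4
  refine ⟨V, K, i1, i2, C, by rwa [← hk] at c1, fun P hP => ?_⟩
  have e : (r : ℝ) = k + s + 2 := by exact_mod_cast hk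
  refine le_trans (mul_le_mul_of_nonneg_right (by linarith) (by positivity))
    (asym h0 h1 (Real.exp_log (by linarith)).symm hL (by linarith) s1
      (c2 P hP θ h0 (by linarith)))

end Pool.Agent.Results.MP_b89653_co.LowerBound
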