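import Pool.Agent.Lib.MP_b89653_co.Main

set_option autoImplicit false

universe u v

namespace Pool.Agent.Results.MP_b89653_co.MeanCycles

open Pool.Agent.Lib.MP_b89653_co

/-- A duplicate-free list with at least three entries whose cyclically consecutive entries are
adjacent is the vertex list of a cycle. -/
theorem exists_cycle {V : Type u} [DecidableEq V] (G : SimpleGraph V) (a : V) (t : List V)
    (hn : (a :: t).Nodup) (ht : 2 ≤ t.length) (hc : List.IsChain G.Adj (a :: (t ++ [a]))) :
    ∃ p : G.Walk a a, p.IsCycle ∧ p.support.toFinset = (a :: t).toFinset := by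
  have hne : a :: (t ++ [a]) ≠ [] := List.cons_ne_nil _ _
  have hl : (a :: (t ++ [a])).getLast hne = a := by simp
  let p : G.Walk a a := (SimpleGraph.Walk.ofSupport _ hne hc).copy rfl hl
  have hs : p.support = a :: (t ++ [a]) := by
    simp only [p]
    rw [SimpleGraph.Walk.support_copy]
    exact SimpleGraph.Walk.support_ofSupport hne hc
  have hlen : p.length = t.length + 1 := by
    have h1 := p.length_support
    rw [hs] at h1
    simp only [List.length_cons, List.length_append, List.length_nil] at h1
    omega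
  refine ⟨p, ?_, ?_⟩
  · rw [SimpleGraph.Walk.isCycle_iff_isPath_tail_and_le_length]
    refine ⟨?_, by omega⟩
    have hnil : ¬ p.Nil := by
      rw [SimpleGraph.Walk.not_nil_iff_lt_length]
      omega
    rw [SimpleGraph.Walk.isPath_def, SimpleGraph.Walk.support_tail_of_not_nil _ hnil, hs,
      List.tail_cons]
    exact (List.perm_append_singleton a t).nodup_iff.mpr hn
  · rw [hs]
    ext x
    simp only [List.mem_toFinset, List.mem_cons, List.mem_append, List.not_mem_nil, or_false]
    tauto

theorem chain_ne {W : Type} (a : W) (t : List W) (hn : (a :: t).Nodup) (ht : t ≠ []) :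
    List.IsChain (· ≠ ·) (a :: (t ++ [a])) := by
  have h1 : (t ++ [a]).Nodup := (List.perm_append_singleton a t).nodup_iff.mpr hn
  obtain ⟨b, t, rfl⟩ := List.exists_cons_of_ne_nil ht
  rw [List.cons_append, List.isChain_cons_cons]
  refine ⟨?_, List.Pairwise.isChain h1⟩
  intro hab
  rw [List.nodup_cons] at hn
  exact hn.1 (by simp [hab])

/-- For every real `r` there is `m` such that for every finite vertex type, every colour type and
every edge colouring of the complete graph in which the vertices see on average at most `r`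
colours, the vertex set has a partition into at most `m` parts, each having at most two vertices
or being the vertex set of a cycle all of whose edges have the same colour. -/
theorem result (r : ℝ) :
    ∃ m : ℕ, ∀ (V : Type u) (K : Type v) [Fintype V] [DecidableEq V]
      (C : SimpleGraph.TopEdgeLabeling V K),
      (∑ x : V, (({k : K | ∃ y : V, (C.labelGraph k).Adj x y}.ncard : ℕ) : ℝ)) ≤
        r * Fintype.card V →
      ∃ P : Finpartition (Finset.univ : Finset V), P.parts.card ≤ m ∧
        ∀ S ∈ P.parts, S.card ≤ 2 ∨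
          ∃ (k : K) (x : V) (p : (C.labelGraph k).Walk x x),
            p.IsCycle ∧ p.support.toFinset = S := by
  classical
  obtain ⟨m, hm⟩ := mean_cover ⌈r⌉₊
  refine ⟨m, fun V K _ _ C hC => ?_⟩
  obtain ⟨n, hn⟩ : ∃ n, n = Fintype.card V := ⟨_, rfl⟩
  have e : Fin n ≃ V := (Fintype.equivFinOfCardEq hn.symm).symm
  have hfin : (Set.range (show (⊤ : SimpleGraph V).edgeSet → K from C)).Finite :=
    Set.finite_range _
  obtain ⟨f, hf⟩ := Set.countable_iff_exists_injOn.mp hfin.countable
  let c : Fin n → Fin n → ℕ := fun a b =>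
    if h : (⊤ : SimpleGraph V).Adj (e a) (e b) then f (C.get (e a) (e b) h) else 0
  have hsym : ∀ a b, c a b = c b a := by
    intro a b
    by_cases h : (⊤ : SimpleGraph V).Adj (e a) (e b)
    · simp only [c, dif_pos h, dif_pos h.symm]
      rw [SimpleGraph.EdgeLabeling.get_comm]
    · have h' : ¬ (⊤ : SimpleGraph V).Adj (e b) (e a) := fun h' => h h'.symm
      simp only [c, dif_neg h, dif_neg h']
  have hadj : ∀ a b : Fin n, a ≠ b → (⊤ : SimpleGraph V).Adj (e a) (e b) := fun a b h => by
    simpa using h
  have hcnt : ∀ a : Fin n, ((Finset.univ.erase a).image (c a)).card ≤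
      {k : K | ∃ y : V, (C.labelGraph k).Adj (e a) y}.ncard := by
    intro a
    have hF : {k : K | ∃ y : V, (C.labelGraph k).Adj (e a) y}.Finite := by
      refine hfin.subset ?_
      rintro k ⟨y, hy⟩
      obtain ⟨H, rfl⟩ := (SimpleGraph.EdgeLabeling.labelGraph_adj _ _).mp hy
      exact ⟨_, rfl⟩
    rw [← Set.ncard_coe_finset]
    refine le_trans (Set.ncard_le_ncard ?_ (hF.image f)) (Set.ncard_image_le hF)
    intro j hj
    obtain ⟨b, hb, rfl⟩ := Finset.mem_image.mp (Finset.mem_coe.mp hj)
    have hab : a ≠ b := (Finset.ne_of_mem_erase hb).symm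
    refine ⟨C.get (e a) (e b) (hadj a b hab), ⟨e b, ?_⟩, ?_⟩
    · exact (SimpleGraph.EdgeLabeling.labelGraph_adj _ _).mpr ⟨hadj a b hab, rfl⟩
    · simp only [c, dif_pos (hadj a b hab)]
  have hmean : ∑ a : Fin n, ((Finset.univ.erase a).image (c a)).card ≤ ⌈r⌉₊ * n := by
    have h1 : ((∑ a : Fin n, ((Finset.univ.erase a).image (c a)).card : ℕ) : ℝ) ≤
        ((⌈r⌉₊ * n : ℕ) : ℝ) := by
      push_cast
      calc (∑ a : Fin n, (((Finset.univ.erase a).image (c a)).card : ℝ))
          ≤ ∑ a : Fin n, (({k : K | ∃ y : V, (C.labelGraph k).Adj (e a) y}.ncard : ℕ) : ℝ) :=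
            Finset.sum_le_sum fun a _ => by exact_mod_cast hcnt a
        _ = ∑ x : V, (({k : K | ∃ y : V, (C.labelGraph k).Adj x y}.ncard : ℕ) : ℝ) :=
            Equiv.sum_comp e
              (fun x => (({k : K | ∃ y : V, (C.labelGraph k).Adj x y}.ncard : ℕ) : ℝ))
        _ ≤ r * Fintype.card V := hC
        _ ≤ (⌈r⌉₊ : ℝ) * n := by
            rw [hn]
            exact mul_le_mul_of_nonneg_right (Nat.le_ceil r) (Nat.cast_nonneg _)
    exact_mod_cast h1
  obtain ⟨L, h1, h2, h3, h4⟩ := hm n c hsym hmean
  rw [List.nodup_flatten] at h2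
  let parts : Finset (Finset V) := (L.toFinset.image fun l => (l.map e).toFinset).erase ∅
  have hmem : ∀ S, S ∈ parts → ∃ l ∈ L, (l.map e).toFinset = S := by
    intro S hS
    obtain ⟨l, hl, rfl⟩ := Finset.mem_image.mp (Finset.mem_of_mem_erase hS)
    exact ⟨l, List.mem_toFinset.mp hl, rfl⟩
  refine ⟨Finpartition.ofExistsUnique parts (fun _ _ => Finset.subset_univ _) ?_
    (Finset.notMem_erase _ _), ?_, ?_⟩
  · intro x _
    obtain ⟨l, hl, hx⟩ := List.mem_flatten.mp ((h3 (e.symm x)).mpr (Finset.mem_univ _))
    have hxl : x ∈ (l.map e).toFinset := by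
      rw [List.mem_toFinset, List.mem_map]
      exact ⟨_, hx, e.apply_symm_apply x⟩
    refine ⟨(l.map e).toFinset, ⟨Finset.mem_erase.mpr ⟨Finset.ne_empty_of_mem hxl, ?_⟩, hxl⟩, ?_⟩
    · exact Finset.mem_image.mpr ⟨l, List.mem_toFinset.mpr hl, rfl⟩
    · rintro S ⟨hS, hxS⟩
      obtain ⟨l', hl', rfl⟩ := hmem S hS
      rw [List.mem_toFinset, List.mem_map] at hxS
      obtain ⟨b, hb, hbx⟩ := hxS
      have hb' : b = e.symm x := by rw [← hbx, e.symm_apply_apply]
      subst hb'
      by_cases hll : l' = l
      · rw [hll]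
      · have : Std.Symm (List.Disjoint (α := Fin n)) := ⟨fun _ _ h => List.Disjoint.symm h⟩
        exact absurd hx (List.Pairwise.forall h2.2 hl' hl hll hb)
  · change parts.card ≤ m
    exact (Finset.card_erase_le.trans Finset.card_image_le).trans
      ((List.toFinset_card_le L).trans h1)
  · intro S hS
    obtain ⟨l, hl, rfl⟩ := hmem S hS
    by_cases hlen : l.length ≤ 2
    · left
      exact (List.toFinset_card_le _).trans (by simpa using hlen)
    right
    obtain ⟨col, hcol⟩ := h4 l hl
    have hnd := h2.1 l hl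
    match l, hlen, hcol, hnd with
    | [], hlen, _, _ => simp at hlen
    | [_], hlen, _, _ => simp at hlen
    | a :: b :: t, hlen, hcol, hnd =>
      have hch := chain_ne a (b :: t) hnd (List.cons_ne_nil _ _)
      have hcol' : List.IsChain (Rel (fun u v => some (c u v)) col) (a :: (b :: t ++ [a])) := hcol
      have hboth : List.IsChain (fun x y => x ≠ y ∧ c x y = col) (a :: (b :: t ++ [a])) := by
        rw [List.isChain_iff_getElem] at hch hcol' ⊢
        intro i hi
        refine ⟨hch i hi, ?_⟩
        rcases hcol' i hi with h | h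
        · exact absurd h (hch i hi)
        · exact Option.some.inj h
      have hab : a ≠ b ∧ c a b = col := by
        rw [List.cons_append, List.isChain_cons_cons] at hboth
        exact hboth.1
      refine ⟨C.get (e a) (e b) (hadj a b hab.1), e a, ?_⟩
      have hchain : List.IsChain (C.labelGraph (C.get (e a) (e b) (hadj a b hab.1))).Adj
          (e a :: ((b :: t).map e ++ [e a])) := by
        have h5 : e a :: ((b :: t).map e ++ [e a]) = (a :: (b :: t ++ [a])).map e := by simp
        rw [h5, List.isChain_map]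
        refine hboth.imp fun x y hxy => ?_
        refine (SimpleGraph.EdgeLabeling.labelGraph_adj _ _).mpr ⟨hadj x y hxy.1, ?_⟩
        apply hf ⟨_, rfl⟩ ⟨_, rfl⟩
        have h6 := hxy.2.trans hab.2.symm
        simp only [c, dif_pos (hadj x y hxy.1), dif_pos (hadj a b hab.1)] at h6
        exact h6
      have hnd' : (e a :: (b :: t).map e).Nodup := by
        rw [← List.map_cons]
        exact hnd.map e.injective
      obtain ⟨p, hp1, hp2⟩ := exists_cycle _ (e a) ((b :: t).map e) hnd'
        (by simp only [List.length_cons, List.length_map] at hlen ⊢; omega) hchain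
      exact ⟨p, hp1, hp2⟩

end Pool.Agent.Results.MP_b89653_co.MeanCycles
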